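import Pool.Agent.TH36.E3.Struct

/-!
MP_1664c7_al (Q1): anticommutative 3-Engel algebras over a field of characteristic different from
two and three are locally nilpotent.
-/

namespace Pool.Agent.Results.MP_1664c7_al.CharNotTwoThree

open Pool.Agent.H461R3.E3

universe u v

/-- Over every field `F` of characteristic different from 2 and 3, every anticommutative 3-Engel
algebra `A` is locally nilpotent: for every finite subset `S` of `A` there is an `N` such that every
product of `N` elements of the subalgebra generated by `S`, with any arrangement of parentheses,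
vanishes. -/
theorem result (F : Type u) [Field F] (h2 : (2 : F) ≠ 0) (h3 : (3 : F) ≠ 0)
    (A : Type v) [NonUnitalNonAssocRing A] [Module F A] [IsScalarTower F A A]
    [SMulCommClass F A A] (h0 : Anticommutative A) (h1 : ThreeEngel A)
    (S : Set A) (hS : S.Finite) :
    ∃ N, 1 ≤ N ∧ ∀ x : A, IsProd (NonUnitalAlgebra.adjoin F S : Set A) N x → x = 0 := by
  obtain ⟨N, hN1, hN⟩ := Pool.Agent.TH36.E3.loc_nilp (F := F) h2 h3 h0 h1 hS
  exact ⟨N, hN1, hN N le_rfl⟩

end Pool.Agent.Results.MP_1664c7_al.CharNotTwoThree
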